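import Mathlib
import Pool.Agent.X7.SignedSpan

open Pool.Agent.X7.SignedSpan

namespace Pool.Agent.Results.MP_7e2005_co.ThreeAndFour

/-- **Main theorem.** Both questions, for every `s` and every `k, l ≥ 1`.

Q1, with `t = ⌊s/3⌋`: `φ_±(Z_3 × Z_{3k},[0,s]) = 2` iff
* `s ≡ 2 mod 3` and `k ≤ 2t² + 2t + 1`, or
* `s ≡ 1 mod 3` and `k ≤ 2t² + 2t`, or
* `s ≡ 0 mod 3` and `k ≤ 2t² - t`, or
* `s ≡ 0 mod 3` and `k ≤ 2t²` and (`t`, `k` are even, or `t` is odd and `k ≡ 2 mod 4`).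

Q2, with `t = ⌊s/4⌋`: `φ_±(Z_4 × Z_{4l},[0,s]) = 2` iff
* `s ≡ 2, 3 mod 4` and `l ≤ 2t² + 2t`, or
* `s ≡ 0, 1 mod 4` and `l ≤ 2t² - t`, or
* `s ≡ 0, 1 mod 4` and `l ≤ 2t²` and (`t`, `l` are even, or `t` is odd and `l ≡ 2 mod 4`). -/
theorem result (s : ℕ) :
    (∀ k : ℕ, 1 ≤ k →
      (phi (ZMod 3 × ZMod (3 * k)) s = 2 ↔
        ((s % 3 = 2 ∧ k ≤ 2 * (s / 3) ^ 2 + 2 * (s / 3) + 1) ∨
        (s % 3 = 1 ∧ k ≤ 2 * (s / 3) ^ 2 + 2 * (s / 3)) ∨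
        (s % 3 = 0 ∧ k + s / 3 ≤ 2 * (s / 3) ^ 2) ∨
        (s % 3 = 0 ∧ k ≤ 2 * (s / 3) ^ 2 ∧
          (((s / 3) % 2 = 0 ∧ k % 2 = 0) ∨ ((s / 3) % 2 = 1 ∧ k % 4 = 2)))))) ∧
    (∀ l : ℕ, 1 ≤ l →
      (phi (ZMod 4 × ZMod (4 * l)) s = 2 ↔
        ((2 ≤ s % 4 ∧ l ≤ 2 * (s / 4) ^ 2 + 2 * (s / 4)) ∨
        (s % 4 ≤ 1 ∧ l + s / 4 ≤ 2 * (s / 4) ^ 2) ∨
        (s % 4 ≤ 1 ∧ l ≤ 2 * (s / 4) ^ 2 ∧
          (((s / 4) % 2 = 0 ∧ l % 2 = 0) ∨ ((s / 4) % 2 = 1 ∧ l % 4 = 2)))))) := by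
  constructor
  · intro k hk
    rw [classification (by norm_num) hk s]
    unfold Adm
    have h3 : s % 3 < 3 := Nat.mod_lt _ (by norm_num)
    generalize s / 3 = t
    generalize s % 3 = e at h3 ⊢
    generalize t ^ 2 = T
    omega
  · intro l hl
    rw [classification (by norm_num) hl s]
    unfold Adm
    have h3 : s % 4 < 4 := Nat.mod_lt _ (by norm_num)
    generalize s / 4 = t
    generalize s % 4 = e at h3 ⊢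
    generalize t ^ 2 = T
    omega

end Pool.Agent.Results.MP_7e2005_co.ThreeAndFour
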